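import Mathlib
set_option autoImplicit false
open Set MeasureTheory Metric
open scoped ENNReal Pointwise

namespace Pool.Agent.H.Rough

abbrev E (n : ℕ) := EuclideanSpace ℝ (Fin (n + 2))

noncomputable def MM (k : ℕ) : ℕ := 4 ^ k
noncomputable def RR (k : ℕ) : ℝ := 80 * k * (k + 1) * 4 ^ k
noncomputable def ph (s : ℝ) : ℝ :=
  if Int.fract (s / (8 / RR ⌊1 / (10 * s)⌋₊)) < 1 / 2 then 1 else -1
noncomputable def Om {n : ℕ} (u : E n) : ℝ := SignType.sign (u 0) * ph (u 1 / u 0)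

theorem RR_ge {k : ℕ} (hk : 1 ≤ k) : 160 ≤ RR k := by
  have h1 : (1 : ℝ) ≤ k := by exact_mod_cast hk
  have h2 : (1 : ℝ) ≤ 4 ^ k := one_le_pow₀ (by norm_num)
  unfold RR
  have : 1 * (1 + 1) * 1 ≤ (k : ℝ) * (k + 1) * 4 ^ k := by gcongr
  linarith

theorem RR_succ (k : ℕ) : 4 * RR k ≤ RR (k + 1) := by
  unfold RR
  have h1 : (0 : ℝ) ≤ k := Nat.cast_nonneg k
  have h2 : (0 : ℝ) < 4 ^ k := by positivity
  push_cast
  rw [pow_succ]
  nlinarith [mul_nonneg h1 h2.le]

theorem RR_nn (k : ℕ) : 0 ≤ RR k := by unfold RR; positivity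

theorem RR_mono : Monotone RR := monotone_nat_of_le_succ fun k => by
  linarith [RR_succ k, RR_nn k]

theorem ph_meas : Measurable ph := by
  unfold ph
  refine Measurable.ite (measurableSet_lt ?_ measurable_const) measurable_const measurable_const
  refine Measurable.fract (measurable_id.div (measurable_const.div ?_))
  exact (measurable_from_top (f := RR)).comp
    (Nat.measurable_floor.comp (measurable_const.div (measurable_const.mul measurable_id)))

theorem sgn_meas : Measurable fun t : ℝ => (SignType.sign t : ℝ) := by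
  have : (fun t : ℝ => (SignType.sign t : ℝ)) =
      fun t => if 0 < t then 1 else if t < 0 then -1 else 0 := by
    funext t
    rcases lt_trichotomy t 0 with h | h | h
    · simp [h, h.not_gt]
    · simp [h]
    · simp [h]
  rw [this]
  exact Measurable.ite measurableSet_Ioi measurable_const
    (Measurable.ite measurableSet_Iio measurable_const measurable_const)

theorem Om_meas {n : ℕ} : Measurable (Om (n := n)) := by
  have h : ∀ i, Measurable fun u : E n => u i := fun i => by fun_prop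
  exact (sgn_meas.comp (h 0)).mul (ph_meas.comp ((h 1).div (h 0)))

theorem Om_le {n : ℕ} (u : E n) : |Om u| ≤ 1 := by
  unfold Om ph
  rw [abs_mul]
  refine mul_le_one₀ ?_ (abs_nonneg _) ?_
  · rcases lt_trichotomy (u 0) 0 with h | h | h <;> simp [h]
  · split_ifs <;> simp

theorem Om_neg {n : ℕ} (u : E n) : Om (-u) = -Om u := by
  simp [Om, neg_div_neg_eq, Left.sign_neg]

theorem Om_int (n : ℕ) : ∫ u : sphere (0 : E n) 1, Om (u : E n) ∂(volume.toSphere) = 0 := by
  let e : sphere (0 : E n) 1 ≃ᵐ sphere (0 : E n) 1 := (Homeomorph.neg _).toMeasurableEquiv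
  have he : Measure.map e (volume : Measure (E n)).toSphere = volume.toSphere := by
    ext s hs
    rw [e.map_apply, Measure.toSphere_apply' _ (e.measurable hs), Measure.toSphere_apply' _ hs]
    congr 1
    rw [← Measure.measure_neg]
    congr 1
    ext x
    simp only [Set.mem_neg, Set.mem_smul, mem_image, mem_preimage]
    constructor
    · rintro ⟨t, ht, _, ⟨u, hu, rfl⟩, h⟩
      exact ⟨t, ht, _, ⟨-u, hu, rfl⟩, by simp [h]⟩
    · rintro ⟨t, ht, _, ⟨u, hu, rfl⟩, h⟩
      exact ⟨t, ht, _, ⟨-u, by simpa [e] using hu, rfl⟩, by simp [h]⟩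
  have h := integral_map_equiv (μ := (volume : Measure (E n)).toSphere) e
    fun u => Om (u : E n)
  rw [he] at h
  have h2 : ∀ u : sphere (0 : E n) 1, Om ((e u : sphere (0 : E n) 1) : E n) = -Om (u : E n) :=
    fun u => by rw [← Om_neg]; rfl
  simp only [h2, integral_neg] at h
  linarith

theorem ph_val {k j : ℕ} (hk : 1 ≤ k) (h1 : k * MM k < j) (h2 : j < (k + 1) * MM k) {t ε : ℝ}
    (hε : ε = 1 ∨ ε = -1) (t0 : 0 < ε * t) (t1 : ε * t < 4 / RR k) :
    ph (j * (8 / RR k) + t) = ε := by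
  have hR := RR_ge hk
  have k1 : (1 : ℝ) ≤ k := by exact_mod_cast hk
  set δ := 8 / RR k with hδ
  have δ0 : 0 < δ := by positivity
  have hd : 4 / RR k = δ / 2 := by rw [hδ]; ring
  have tb : |t| < δ / 2 := by
    rw [← hd, abs_lt]; rcases hε with rfl | rfl <;> constructor <;> linarith
  have h1' : (k : ℝ) * 4 ^ k + 1 ≤ j := by unfold MM at h1; exact_mod_cast h1
  have h2' : (j : ℝ) + 1 ≤ (k + 1) * 4 ^ k := by unfold MM at h2; exact_mod_cast h2
  have p4 : (0 : ℝ) < 4 ^ k := by positivity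
  have e1 : (k : ℝ) * 4 ^ k * δ = 1 / (10 * (k + 1)) := by
    rw [hδ]; unfold RR; field_simp; norm_num
  have e2 : ((k : ℝ) + 1) * 4 ^ k * δ = 1 / (10 * k) := by
    rw [hδ]; unfold RR; field_simp; norm_num
  obtain ⟨tb1, tb2⟩ := abs_lt.1 tb
  have l1 : 1 / (10 * ((k : ℝ) + 1)) < j * δ + t := by rw [← e1]; nlinarith
  have l2 : j * δ + t < 1 / (10 * k) := by rw [← e2]; nlinarith
  have s0 : 0 < j * δ + t := lt_trans (by positivity) l1
  have fl : ⌊1 / (10 * (j * δ + t))⌋₊ = k := by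
    rw [Nat.floor_eq_iff (by positivity), le_div_iff₀ (by positivity), div_lt_iff₀ (by positivity)]
    rw [div_lt_iff₀ (by positivity)] at l1
    rw [lt_div_iff₀ (by positivity)] at l2
    constructor <;> nlinarith
  unfold ph
  rw [fl, ← hδ, add_div, mul_div_cancel_right₀ _ δ0.ne', Int.fract_natCast_add]
  have q1 : t / δ < 1 / 2 := by rw [div_lt_iff₀ δ0]; linarith
  have q2 : -(1 / 2) < t / δ := by rw [lt_div_iff₀ δ0]; linarith
  rcases hε with rfl | rfl
  · have : 0 ≤ t / δ := div_nonneg (by linarith) δ0.le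
    rw [Int.fract_eq_self.2 ⟨this, by linarith⟩, if_pos q1]
  · have : t / δ < 0 := div_neg_of_neg_of_pos (by linarith) δ0
    rw [← Int.fract_add_one, Int.fract_eq_self.2 ⟨by linarith, by linarith⟩, if_neg (by linarith)]

noncomputable def lo (n : ℕ) (R : ℝ) : Fin (n + 2) → ℝ :=
  Fin.cons (-(2 * R)) (Fin.cons (-(1 / 10)) fun _ => -R)
noncomputable def hi (n : ℕ) (R : ℝ) : Fin (n + 2) → ℝ :=
  Fin.cons (-R) (Fin.cons (1 / 10) fun _ => R)
noncomputable def sh (n : ℕ) (s : ℝ) : E n →ₗ[ℝ] E n :=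
  LinearMap.transvection ((-s) • (EuclideanSpace.projₗ (0 : Fin (n + 2)) : E n →ₗ[ℝ] ℝ))
    (EuclideanSpace.single 1 1)
def slab (n : ℕ) (R s : ℝ) : Set (E n) := sh n s ⁻¹' (WithLp.ofLp ⁻¹' Icc (lo n R) (hi n R))

theorem slab_meas (n : ℕ) (R s : ℝ) : MeasurableSet (slab n R s) :=
  (sh n s).continuous_of_finiteDimensional.measurable
    ((PiLp.volume_preserving_ofLp _).measurable measurableSet_Icc)

theorem slab_vol (n : ℕ) {R : ℝ} (hR : 0 ≤ R) (s : ℝ) :
    volume (slab n R s) = ENNReal.ofReal (R / 5 * (2 * R) ^ n) := by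
  have hd : LinearMap.det (sh n s) = 1 := by
    unfold sh; rw [LinearMap.transvection.det]; simp
  rw [slab, Measure.addHaar_preimage_linearMap _ (by rw [hd]; simp), hd,
    (PiLp.volume_preserving_ofLp _).measure_preimage measurableSet_Icc.nullMeasurableSet,
    Real.volume_Icc_pi, Fin.prod_univ_succ, Fin.prod_univ_succ]
  simp only [lo, hi, Fin.cons_zero, Fin.cons_succ, Finset.prod_const, Finset.card_univ,
    Fintype.card_fin, inv_one, abs_one, ENNReal.ofReal_one, one_mul]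
  rw [← ENNReal.ofReal_pow (by linarith), ← ENNReal.ofReal_mul (by norm_num),
    ← ENNReal.ofReal_mul (by linarith)]
  congr 1; ring

theorem slab_mem {n : ℕ} {R s : ℝ} {z : E n} (h : z ∈ slab n R s) :
    (-(2 * R) ≤ z 0 ∧ z 0 ≤ -R) ∧ (-(1 / 10) ≤ z 1 - s * z 0 ∧ z 1 - s * z 0 ≤ 1 / 10) ∧
      ∀ i : Fin n, |z i.succ.succ| ≤ R := by
  obtain ⟨h1, h2⟩ := h
  refine ⟨⟨?_, ?_⟩, ⟨?_, ?_⟩, fun i => abs_le.2 ⟨?_, ?_⟩⟩
  · simpa [lo, sh, LinearMap.transvection.apply] using h1 0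
  · simpa [hi, sh, LinearMap.transvection.apply] using h2 0
  · have := h1 1
    simp [lo, sh, LinearMap.transvection.apply] at this
    linarith
  · have := h2 1
    simp [hi, sh, LinearMap.transvection.apply] at this
    linarith
  · have := h1 i.succ.succ
    have e : i.succ.succ ≠ (1 : Fin (n + 2)) := (Fin.succ_succ_ne_one i)
    simpa [lo, sh, LinearMap.transvection.apply, e] using this
  · have := h2 i.succ.succ
    have e : i.succ.succ ≠ (1 : Fin (n + 2)) := (Fin.succ_succ_ne_one i)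
    simpa [hi, sh, LinearMap.transvection.apply, e] using this

def ZZ (n k : ℕ) : Set (E n) :=
  ⋃ j ∈ Finset.Ioo (k * MM k) ((k + 1) * MM k), slab n (RR k) (j * (8 / RR k))

theorem ZZ_meas (n k : ℕ) : MeasurableSet (ZZ n k) :=
  Finset.measurableSet_biUnion _ fun _ _ => slab_meas _ _ _

theorem ZZ_vol (n : ℕ) {k : ℕ} (hk : 1 ≤ k) :
    volume (ZZ n k) = ENNReal.ofReal ((4 ^ k - 1) * (RR k / 5 * (2 * RR k) ^ n)) := by
  have hR := RR_ge hk
  rw [ZZ, measure_biUnion_finset _ fun _ _ => slab_meas _ _ _]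
  · simp only [slab_vol n (RR_nn k), Finset.sum_const, Nat.card_Ioo, nsmul_eq_mul]
    have h1 : 1 ≤ 4 ^ k := Nat.one_le_pow _ _ (by norm_num)
    have : (k + 1) * MM k - k * MM k - 1 = 4 ^ k - 1 := by
      unfold MM; rw [add_mul]; omega
    rw [this, ← ENNReal.ofReal_natCast, ← ENNReal.ofReal_mul (Nat.cast_nonneg _)]
    congr 2
    push_cast [Nat.cast_sub h1]; ring
  · have aux : ∀ i j : ℕ, i < j →
        Disjoint (slab n (RR k) (i * (8 / RR k))) (slab n (RR k) (j * (8 / RR k))) := by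
      intro i j hij
      rw [Set.disjoint_left]
      intro z h1 h2
      obtain ⟨⟨-, a⟩, ⟨-, b⟩, -⟩ := slab_mem h1
      obtain ⟨-, ⟨c, c'⟩, -⟩ := slab_mem h2
      obtain ⟨-, ⟨b', -⟩, -⟩ := slab_mem h1
      have : (i : ℝ) + 1 ≤ j := by exact_mod_cast hij
      have e : 8 / RR k * RR k = 8 := by field_simp
      have p : 0 < 8 / RR k := by positivity
      have q : 8 ≤ 8 / RR k * (-z 0) := by nlinarith
      nlinarith
    intro i _ j _ hij
    rcases lt_or_gt_of_ne hij with h | h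
    · exact aux i j h
    · exact (aux j i h).symm

theorem ZZ_facts {n k : ℕ} (hk : 1 ≤ k) {z : E n} (hz : z ∈ ZZ n k) :
    (-(2 * RR k) ≤ z 0 ∧ z 0 ≤ -RR k) ∧ RR k ≤ ‖z‖ ∧ ‖z‖ ≤ 2 * (n + 2) * RR k ∧
    ∀ ε : ℝ, (ε = 1 ∨ ε = -1) → ∀ x : E n, ‖x‖ < 1 → 1 / 2 < ε * x 1 →
      Om (‖x - z‖⁻¹ • (x - z)) = ε := by
  have hR := RR_ge hk
  obtain ⟨j, hj, hz⟩ := mem_iUnion₂.1 hz
  rw [Finset.mem_Ioo] at hj
  obtain ⟨⟨a, a'⟩, ⟨b, b'⟩, c⟩ := slab_mem hz
  set s := j * (8 / RR k) with hs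
  have s0 : 0 ≤ s := by positivity
  have k1 : (1 : ℝ) ≤ k := by exact_mod_cast hk
  have s1 : s ≤ 1 / 10 := by
    have h2' : (j : ℝ) ≤ (k + 1) * 4 ^ k := by
      have := hj.2.le; unfold MM at this; exact_mod_cast this
    have e2 : ((k : ℝ) + 1) * 4 ^ k * (8 / RR k) = 1 / (10 * k) := by
      unfold RR; field_simp; norm_num
    calc s ≤ ((k : ℝ) + 1) * 4 ^ k * (8 / RR k) := by rw [hs]; gcongr
      _ = 1 / (10 * k) := e2
      _ ≤ 1 / 10 := by gcongr; linarith
  have co : ∀ (y : E n) i, |y i| ≤ ‖y‖ := fun y i => PiLp.norm_apply_le y i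
  refine ⟨⟨a, a'⟩, ?_, ?_, ?_⟩
  · have := (abs_le.1 (co z 0)).1; linarith
  · have hb : ∀ i, |z i| ≤ 2 * RR k := by
      intro i
      refine Fin.cases ?_ (fun i => Fin.cases ?_ (fun i => ?_) i) i
      · rw [abs_le]; constructor <;> linarith
      · show |z 1| ≤ _
        rw [abs_le]; constructor <;> nlinarith
      · linarith [c i]
    rw [EuclideanSpace.norm_eq, Real.sqrt_le_iff]
    refine ⟨by positivity, ?_⟩
    calc ∑ i, ‖z i‖ ^ 2 ≤ ∑ _i : Fin (n + 2), (2 * RR k) ^ 2 :=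
          Finset.sum_le_sum fun i _ => by
            rw [Real.norm_eq_abs]; gcongr; exact hb i
      _ = (n + 2) * (2 * RR k) ^ 2 := by simp
      _ ≤ _ := by
        have : (0 : ℝ) ≤ n := Nat.cast_nonneg n
        have : 0 ≤ (2 * RR k) ^ 2 := by positivity
        nlinarith
  · intro ε hε x hx hx1
    obtain ⟨x0, x0'⟩ := abs_le.1 (co x 0)
    obtain ⟨x1, x1'⟩ := abs_le.1 (co x 1)
    have w0 : RR k - 1 ≤ x 0 - z 0 := by linarith
    have w0' : 0 < x 0 - z 0 := by linarith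
    have hn : 0 < ‖x - z‖ := lt_of_lt_of_le w0' (by simpa using (abs_le.1 (co (x - z) 0)).2)
    unfold Om
    simp only [PiLp.smul_apply, PiLp.sub_apply, smul_eq_mul]
    rw [sign_pos (by positivity), mul_div_mul_left _ _ (by positivity)]
    have : (x 1 - z 1) / (x 0 - z 0) = s + (x 1 - s * x 0 - (z 1 - s * z 0)) / (x 0 - z 0) := by
      field_simp; ring
    rw [this, hs, ph_val hk hj.1 hj.2 hε]
    · simp
    · rw [← mul_div_assoc]
      refine div_pos ?_ w0'
      rcases hε with rfl | rfl <;> nlinarith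
    · rw [← mul_div_assoc, div_lt_div_iff₀ w0' (by linarith)]
      have : ε * (x 1 - s * x 0 - (z 1 - s * z 0)) ≤ 2 := by
        rcases hε with rfl | rfl <;> nlinarith
      nlinarith

end Pool.Agent.H.Rough
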