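import Pool.Agent.H.MP_577a3c_an.A
set_option autoImplicit false
open Set MeasureTheory Metric
open scoped ENNReal Pointwise

namespace Pool.Agent.H.Rough

noncomputable def ff (n N : ℕ) (z : E n) : ℝ :=
  ∑ k ∈ Finset.range N, (ZZ n (k + 1)).indicator (fun _ => (k + 1 : ℝ)) z

theorem ff_meas (n N : ℕ) : Measurable (ff n N) :=
  Finset.measurable_sum _ fun _ _ => measurable_const.indicator (ZZ_meas _ _)

theorem ff_nn (n N : ℕ) (z : E n) : 0 ≤ ff n N z :=
  Finset.sum_nonneg fun k _ => indicator_nonneg (fun _ _ => by positivity) _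

theorem ZZ_disj {n i j : ℕ} (h : i ≠ j) {z : E n} (hi : z ∈ ZZ n (i + 1)) : z ∉ ZZ n (j + 1) := by
  intro hj
  have aux : ∀ i j : ℕ, i < j → z ∈ ZZ n (i + 1) → z ∈ ZZ n (j + 1) → False := by
    intro i j h hi hj
    have a := (ZZ_facts (by omega) hi).1.1
    have b := (ZZ_facts (by omega) hj).1.2
    have := RR_succ (i + 1)
    have := RR_mono (show i + 1 + 1 ≤ j + 1 by omega)
    have := RR_ge (k := i + 1) (by omega)
    linarith
  rcases lt_or_gt_of_ne h with h | h
  · exact aux i j h hi hj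
  · exact aux j i h hj hi

theorem ff_cases (n N : ℕ) (z : E n) :
    (ff n N z = 0 ∧ ∀ k < N, z ∉ ZZ n (k + 1)) ∨
      ∃ k < N, z ∈ ZZ n (k + 1) ∧ ff n N z = k + 1 := by
  by_cases h : ∃ k < N, z ∈ ZZ n (k + 1)
  · obtain ⟨k, hk, hz⟩ := h
    refine Or.inr ⟨k, hk, hz, ?_⟩
    unfold ff
    rw [Finset.sum_eq_single k (fun j _ hj => indicator_of_notMem (ZZ_disj hj.symm hz) _)
      (fun h => absurd (by simpa using hk) h), indicator_of_mem hz]
  · push Not at h
    exact Or.inl ⟨Finset.sum_eq_zero fun k hk => indicator_of_notMem (h k (by simpa using hk)) _, h⟩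

theorem geo (d : ℕ) (hd : 1 ≤ d) {T : ℝ} (hT : 0 ≤ T) (N : ℕ) :
    ∑ k ∈ Finset.range N, (if RR (k + 1) < T then RR (k + 1) ^ d else 0) ≤ 2 * T ^ d ∧
      ∑ k ∈ Finset.range N, (if RR (k + 1) < T then RR (k + 1) ^ d else 0) ≤ RR (N + 1) ^ d := by
  induction N with
  | zero => exact ⟨by simp; positivity, by simp; exact pow_nonneg (RR_nn _) _⟩
  | succ N ih =>
    rw [Finset.sum_range_succ]
    have p := pow_nonneg (RR_nn (N + 1)) d
    have h2 : 2 * RR (N + 1) ^ d ≤ RR (N + 1 + 1) ^ d := by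
      have : (4 * RR (N + 1)) ^ d ≤ RR (N + 1 + 1) ^ d :=
        pow_le_pow_left₀ (by linarith [RR_nn (N + 1)]) (RR_succ _) d
      rw [mul_pow] at this
      have h4 : (4 : ℝ) ^ 1 ≤ 4 ^ d := pow_le_pow_right₀ (by norm_num) hd
      nlinarith
    split_ifs with h
    · have : RR (N + 1) ^ d ≤ T ^ d := pow_le_pow_left₀ (RR_nn _) h.le d
      constructor <;> linarith [ih.2]
    · constructor <;> linarith [ih.1, ih.2]

theorem vol_up (n k : ℕ) : ENNReal.ofReal ((k + 1 : ℝ) ^ 2) * volume (ZZ n (k + 1)) ≤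
    ENNReal.ofReal (2 ^ n * RR (k + 1) ^ (n + 2)) := by
  rw [ZZ_vol n (by omega), ← ENNReal.ofReal_mul (by positivity)]
  refine ENNReal.ofReal_le_ofReal ?_
  have h := RR_nn (k + 1)
  have e : RR (k + 1) = 80 * (k + 1) * (k + 2) * 4 ^ (k + 1) := by unfold RR; push_cast; ring
  have h1 : (k + 1 : ℝ) ^ 2 * (4 ^ (k + 1) - 1) ≤ RR (k + 1) := by
    rw [e]
    have : (0 : ℝ) < 4 ^ (k + 1) := by positivity
    have : (0 : ℝ) ≤ k := Nat.cast_nonneg k
    nlinarith [mul_nonneg this this]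
  calc _ = ((k + 1 : ℝ) ^ 2 * (4 ^ (k + 1) - 1)) * (RR (k + 1) / 5 * (2 * RR (k + 1)) ^ n) := by
        ring
    _ ≤ RR (k + 1) * (RR (k + 1) * (2 * RR (k + 1)) ^ n) := by gcongr; linarith
    _ = _ := by ring

theorem avg_le (n N : ℕ) {r : ℝ} (r1 : 1 ≤ r) (r2 : r ≤ 2) {c : E n} {ρ : ℝ}
    (h0 : (0 : E n) ∈ ball c ρ) :
    ∫⁻ z in ball c ρ, ‖ff n N z‖ₑ ^ r ≤ ENNReal.ofReal (2 ^ n * (2 * (2 * ρ) ^ (n + 2))) := by
  have hρ : 0 < ρ := pos_of_mem_ball h0
  have pt : ∀ z, ‖ff n N z‖ₑ ^ r ≤ ∑ k ∈ Finset.range N,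
      (ZZ n (k + 1)).indicator (fun _ => ENNReal.ofReal ((k + 1 : ℝ) ^ 2)) z := by
    intro z
    rcases ff_cases n N z with ⟨h, -⟩ | ⟨k, hk, hz, h⟩
    · rw [h, enorm_zero, ENNReal.zero_rpow_of_pos (by linarith)]; exact bot_le
    · refine le_trans ?_ (Finset.single_le_sum (f := fun k => (ZZ n (k + 1)).indicator
        (fun _ => ENNReal.ofReal ((k + 1 : ℝ) ^ 2)) z) (fun _ _ => bot_le)
        (Finset.mem_range.2 hk))
      have k0 : (0 : ℝ) ≤ k := Nat.cast_nonneg k
      rw [indicator_of_mem hz, h, Real.enorm_eq_ofReal (by positivity),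
        ENNReal.ofReal_rpow_of_nonneg (by positivity) (by linarith)]
      refine ENNReal.ofReal_le_ofReal ?_
      rw [← Real.rpow_natCast]
      exact Real.rpow_le_rpow_of_exponent_le (by linarith) (by simpa using r2)
  refine (lintegral_mono pt).trans ?_
  rw [lintegral_finset_sum _ fun k _ => measurable_const.indicator (ZZ_meas _ _)]
  have g := (geo (n + 2) (by omega) (T := 2 * ρ) (by linarith) N).1
  refine le_trans ?_ (ENNReal.ofReal_le_ofReal (mul_le_mul_of_nonneg_left g (by positivity)))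
  rw [Finset.mul_sum, ENNReal.ofReal_sum_of_nonneg fun k _ => by
    have := RR_nn (k + 1); split_ifs <;> positivity]
  refine Finset.sum_le_sum fun k _ => ?_
  rw [lintegral_indicator_const (ZZ_meas _ _), Measure.restrict_apply (ZZ_meas _ _)]
  split_ifs with h
  · exact le_trans (by gcongr; exact inter_subset_left) (vol_up n k)
  · have : ZZ n (k + 1) ∩ ball c ρ = ∅ := by
      refine eq_empty_of_forall_notMem fun z hz => h ?_
      have h1 := (ZZ_facts (by omega) hz.1).2.1
      have h2 := dist_triangle_right z 0 c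
      have h3 : dist z c < ρ := hz.2
      have h4 : dist 0 c < ρ := h0
      rw [dist_zero_right] at h2
      linarith
    simp [this]

theorem g_low (n N : ℕ) {ε : ℝ} (hε : ε = 1 ∨ ε = -1) {x : E n} (hx : ‖x‖ < 1)
    (hx1 : 1 / 2 < ε * x 1) :
    (1 / (800 * (3 * (n + 2)) ^ (n + 2))) * ∑ k ∈ Finset.range N, 1 / (k + 2 : ℝ) ≤
      ε * ∫ z, Om (‖x - z‖⁻¹ • (x - z)) / ‖x - z‖ ^ (n + 2) * ff n N z := by
  have fin : ∀ k, volume (ZZ n (k + 1)) < ⊤ := fun k => by
    rw [ZZ_vol n (by omega)]; exact ENNReal.ofReal_lt_top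
  have i1 : ∀ (k : ℕ) (a : ℝ), Integrable ((ZZ n (k + 1)).indicator fun _ => a) := fun k a =>
    (integrableOn_const (fin k).ne).integrable_indicator (ZZ_meas _ _)
  have iF : Integrable (ff n N) := integrable_finset_sum _ fun k _ => i1 k _
  have iK : Integrable fun z => Om (‖x - z‖⁻¹ • (x - z)) / ‖x - z‖ ^ (n + 2) * ff n N z := by
    refine iF.mono' (Measurable.aestronglyMeasurable ?_) (ae_of_all _ fun z => ?_)
    · refine Measurable.mul (Measurable.div (Om_meas.comp ?_) (by fun_prop)) (ff_meas n N)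
      fun_prop
    · rcases ff_cases n N z with ⟨h, -⟩ | ⟨k, hk, hz, h⟩
      · simp [h]
      · have h1 := (ZZ_facts (by omega) hz).2.1
        have h2 := RR_ge (k := k + 1) (by omega)
        have h3 : 1 ≤ ‖x - z‖ := by
          have := norm_sub_norm_le z x
          rw [norm_sub_rev] at this; linarith
        rw [Real.norm_eq_abs, abs_mul, abs_of_nonneg (ff_nn n N z), abs_div]
        refine mul_le_of_le_one_left (ff_nn n N z) (div_le_one_of_le₀ ((Om_le _).trans ?_)
          (abs_nonneg _))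
        rw [abs_of_nonneg (by positivity)]
        exact one_le_pow₀ h3
  rw [← integral_const_mul]
  refine le_trans ?_ (integral_mono (f := fun z => ∑ k ∈ Finset.range N,
    (ZZ n (k + 1)).indicator (fun _ => (k + 1 : ℝ) / (3 * (n + 2) * RR (k + 1)) ^ (n + 2)) z)
    (integrable_finset_sum _ fun k _ => i1 k _) (iK.const_mul ε) fun z => ?_)
  · rw [integral_finset_sum _ fun k _ => i1 k _, Finset.mul_sum]
    refine Finset.sum_le_sum fun k _ => ?_
    have h2 := RR_ge (k := k + 1) (by omega)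
    have p4 : (4 : ℝ) ≤ 4 ^ (k + 1) := by
      have := pow_le_pow_right₀ (show (1 : ℝ) ≤ 4 by norm_num) (show 1 ≤ k + 1 by omega)
      simpa using this
    rw [integral_indicator_const _ (ZZ_meas _ _), Measure.real, ZZ_vol n (by omega),
      ENNReal.toReal_ofReal (mul_nonneg (by linarith) (by positivity)), smul_eq_mul]
    have e : RR (k + 1) = 80 * (k + 1) * (k + 2) * 4 ^ (k + 1) := by unfold RR; push_cast; ring
    have k0 : (0 : ℝ) ≤ k := Nat.cast_nonneg k
    have h3 : RR (k + 1) ^ n ≤ (2 * RR (k + 1)) ^ n := by gcongr; linarith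
    have h4 : RR (k + 1) / (160 * ((k + 1) * (k + 2))) ≤ 4 ^ (k + 1) - 1 := by
      rw [div_le_iff₀ (by positivity), e]
      have : 0 ≤ ((k : ℝ) + 1) * (k + 2) := by positivity
      nlinarith
    calc _ = RR (k + 1) / (160 * ((k + 1) * (k + 2))) * (RR (k + 1) / 5 * RR (k + 1) ^ n) *
          ((k + 1 : ℝ) / (3 * (n + 2) * RR (k + 1)) ^ (n + 2)) := by
          rw [mul_pow (3 * (n + 2 : ℝ))]
          field_simp; ring
      _ ≤ _ := by gcongr; linarith
  · rcases ff_cases n N z with ⟨h, h'⟩ | ⟨k, hk, hz, h⟩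
    · simp only [h, mul_zero]
      exact le_of_eq (Finset.sum_eq_zero fun k hk =>
        indicator_of_notMem (h' k (by simpa using hk)) _)
    · obtain ⟨-, h1, h2, h3⟩ := ZZ_facts (by omega) hz
      have h4 := RR_ge (k := k + 1) (by omega)
      simp only
      rw [Finset.sum_eq_single k (fun j _ hj => indicator_of_notMem (ZZ_disj hj.symm hz) _)
        (fun h => absurd (by simpa using hk) h), indicator_of_mem hz, h3 ε hε x hx hx1, h]
      have e : ε * ε = 1 := by rcases hε with rfl | rfl <;> norm_num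
      have h5 : 0 < ‖x - z‖ := by
        have := norm_sub_norm_le z x
        rw [norm_sub_rev] at this; linarith
      have h6 : ‖x - z‖ ≤ 3 * (n + 2) * RR (k + 1) := by
        have := norm_sub_le x z
        have : (0 : ℝ) ≤ n := Nat.cast_nonneg n
        nlinarith
      calc _ ≤ (k + 1 : ℝ) / ‖x - z‖ ^ (n + 2) := by gcongr
        _ = _ := by rw [← mul_assoc, ← mul_div_assoc, e]; ring

end Pool.Agent.H.Rough
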